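import Pool.Agent.Q16.QP.Pre

set_option autoImplicit false
set_option linter.unusedVariables false

/-! # The norm of the family in the rational coordinates -/

namespace Pool.Agent.Q16.QP

open MvPolynomial Pool.Agent.Q57.QP Topology Filter

section

variable {p : ℕ} [Fact p.Prime]

/-- the ultrametric inequality for three terms -/
theorem norm_add3_le (a b c : ℚ_[p]) : ‖a + b + c‖ ≤ max (max ‖a‖ ‖b‖) ‖c‖ :=
  (IsUltrametricDist.norm_add_le_max _ _).trans
    (max_le_max (IsUltrametricDist.norm_add_le_max _ _) le_rfl)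

/-- near a number of norm at most one -/
theorem ev_le_one {X : Type} {l : Filter X} {g : X → ℚ_[p]} {a : ℚ_[p]} (h : Tendsto g l (𝓝 a))
    (ha : ‖a‖ ≤ 1) : ∀ᶠ x in l, ‖g x‖ ≤ 1 := by
  have h1 : ∀ᶠ x in l, ‖g x - a‖ < 1 := by
    have h2 := h.sub_const a
    rw [sub_self] at h2
    have h3 := h2.norm
    rw [norm_zero] at h3
    exact h3.eventually (gt_mem_nhds one_pos)
  filter_upwards [h1] with x hx
  have h2 : g x = (g x - a) + a := by ring
  rw [h2]
  exact (IsUltrametricDist.norm_add_le_max _ _).trans (max_le hx.le ha)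

/-- near one -/
theorem ev_eq_one {X : Type} {l : Filter X} {g : X → ℚ_[p]} (h : Tendsto g l (𝓝 1)) :
    ∀ᶠ x in l, ‖g x‖ = 1 := by
  have h1 : ∀ᶠ x in l, ‖g x - 1‖ < 1 := by
    have h2 := h.sub_const 1
    rw [sub_self] at h2
    have h3 := h2.norm
    rw [norm_zero] at h3
    exact h3.eventually (gt_mem_nhds one_pos)
  filter_upwards [h1] with x hx
  have h2 : g x = (g x - 1) + 1 := by ring
  have h3 : ‖g x - 1‖ ≠ ‖(1 : ℚ_[p])‖ := by
    rw [norm_one]
    exact hx.ne
  rw [h2, IsUltrametricDist.norm_add_eq_max_of_norm_ne_norm h3, norm_one, max_eq_right hx.le]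

/-- near zero -/
theorem ev_lt_one {X : Type} {l : Filter X} {g : X → ℚ_[p]} (h : Tendsto g l (𝓝 0)) :
    ∀ᶠ x in l, ‖g x‖ < 1 := by
  have h3 := h.norm
  rw [norm_zero] at h3
  exact h3.eventually (gt_mem_nhds one_pos)

/-- **The norm of the family near the point.** -/
theorem qp_norm : StNorm := by
  intro p _ r f i0 j1 ρ D e h G hA hf hb hle
  classical
  set b : Fin r → ℚ_[p] := fun j => coeff (Finsupp.single 2 1) (f j) with hbdef
  have hb1 : b j1 ≠ 0 := by
    intro h0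
    have h1 := hle i0
    have h2 : ‖coeff (Finsupp.single 2 1) (f j1)‖ = 0 := by
      have : coeff (Finsupp.single 2 1) (f j1) = 0 := h0
      rw [this, norm_zero]
    rw [h2] at h1
    exact hb (norm_le_zero_iff.1 h1)
  have hb0 : b i0 ≠ 0 := hb
  have hD0 : constantCoeff D ^ e ≠ 0 := pow_ne_zero _ hA.hD
  have hc1 : Continuous (fun y : Fin 3 → ℚ_[p] => 1 + ρ * y 2) :=
    Continuous.fun_add continuous_const (Continuous.fun_mul continuous_const (continuous_apply 2))
  -- the functions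
  set v : (Fin 3 → ℚ_[p]) → ℚ_[p] := fun y => (1 + ρ * y 2)⁻¹ with hv
  set w : (Fin 3 → ℚ_[p]) → Fin 2 → ℚ_[p] := fun y => ![y 0 * v y, y 1 * v y] with hw
  set g : Fin r → (Fin 3 → ℚ_[p]) → ℚ_[p] := fun j y => eval ![y 0, y 1, y 2, v y] (G j) with hg
  set d : (Fin 3 → ℚ_[p]) → ℚ_[p] := fun y => (eval (w y) D ^ e)⁻¹ with hd
  have hv0 : v 0 = 1 := by
    simp [hv]
  have hw0 : w 0 = ![0, 0] := by
    simp [hw]
  have hcv : ContinuousAt v 0 := by
    refine ContinuousAt.inv₀ hc1.continuousAt ?_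
    simp
  have hcw : ContinuousAt w 0 := by
    refine continuousAt_pi.2 fun i => ?_
    fin_cases i
    · exact ((continuous_apply 0).continuousAt).mul hcv
    · exact ((continuous_apply 1).continuousAt).mul hcv
  have hcg : ∀ j, ContinuousAt (g j) 0 := by
    intro j
    have h1 : ContinuousAt (fun y : Fin 3 → ℚ_[p] => (![y 0, y 1, y 2, v y] : Fin 4 → ℚ_[p])) 0 := by
      refine continuousAt_pi.2 fun i => ?_
      fin_cases i
      · exact (continuous_apply 0).continuousAt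
      · exact (continuous_apply 1).continuousAt
      · exact (continuous_apply 2).continuousAt
      · exact hcv
    exact (MvPolynomial.continuous_eval (G j)).continuousAt.comp h1
  have hg0 : ∀ j, b i0 * g j 0 = constantCoeff D ^ e * b j := by
    intro j
    have h1 := (alg_values hA hf j).2
    have h2 : g j 0 = eval ![0, 0, 0, 1] (G j) := by
      rw [hg]
      beta_reduce
      rw [hv0]
      rfl
    rw [h2]
    exact h1.symm
  have hgne : g j1 0 ≠ 0 := by
    intro h0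
    have h1 := hg0 j1
    rw [h0, mul_zero] at h1
    exact mul_ne_zero hD0 hb1 h1.symm
  have hev0 : eval (w 0) D = constantCoeff D := by
    rw [hw0]
    have h1 := eval₂_zero2 (RingHom.id ℚ_[p]) D
    rwa [eval₂_id] at h1
  have hcD : ContinuousAt (fun y => eval (w y) D) 0 :=
    (MvPolynomial.continuous_eval D).continuousAt.comp hcw
  have hcd : ContinuousAt d 0 := by
    refine ContinuousAt.inv₀ (hcD.pow e) ?_
    rw [hev0]
    exact hD0
  have hd0 : d 0 = (constantCoeff D ^ e)⁻¹ := by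
    rw [hd]
    beta_reduce
    rw [hev0]
  set κ : Fin r → ℚ_[p] := fun j => b j / b j1 with hκ
  have hκ0 : κ i0 ≠ 0 := div_ne_zero hb0 hb1
  have hκ1 : ∀ j, ‖κ j‖ ≤ 1 := by
    intro j
    rw [hκ]
    beta_reduce
    rw [norm_div]
    exact div_le_one_of_le₀ (hle j) (norm_nonneg _)
  set θ : Fin r → (Fin 3 → ℚ_[p]) → ℚ_[p] := fun j y => g j y / g j1 y with hθ
  have hcθ : ∀ j, Tendsto (θ j) (𝓝 0) (𝓝 (κ j)) := by
    intro j
    have h1 : ContinuousAt (θ j) 0 := (hcg j).div (hcg j1) hgne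
    have h2 : θ j 0 = κ j := by
      rw [hθ, hκ]
      beta_reduce
      rw [div_eq_div_iff hgne hb1]
      have h3 := hg0 j
      have h4 := hg0 j1
      have h5 : b i0 * (g j 0 * b j1) = b i0 * (b j * g j1 0) := by
        linear_combination b j1 * h3 - b j * h4
      exact mul_left_cancel₀ hb0 h5
    rw [← h2]
    exact h1
  set η : Fin r → (Fin 3 → ℚ_[p]) → ℚ_[p] := fun j y =>
    - (d y * (κ j - θ j y)) / (d 0 * κ i0) with hη
  have hd00 : d 0 ≠ 0 := by
    rw [hd0]
    exact inv_ne_zero hD0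
  have hcη : ∀ j, Tendsto (η j) (𝓝 0) (𝓝 0) := by
    intro j
    have h1 : Tendsto (fun y => - (d y * (κ j - θ j y)) / (d 0 * κ i0)) (𝓝 0)
        (𝓝 (- (d 0 * (κ j - κ j)) / (d 0 * κ i0))) :=
      (((hcd.tendsto.mul (tendsto_const_nhds.sub (hcθ j))).neg).div_const _)
    rw [sub_self, mul_zero, neg_zero, zero_div] at h1
    exact h1
  have hcδ : Tendsto (fun y => d y / d 0) (𝓝 0) (𝓝 1) := by
    have h1 := hcd.tendsto.div_const (d 0)
    rwa [div_self hd00] at h1
  -- the events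
  have e1 : ∀ᶠ y : Fin 3 → ℚ_[p] in 𝓝 0, (1 + ρ * y 2) ≠ 0 := by
    have h1 : ContinuousAt (fun y : Fin 3 → ℚ_[p] => 1 + ρ * y 2) 0 := hc1.continuousAt
    refine h1.eventually_ne ?_
    simp
  have e2 : ∀ᶠ y : Fin 3 → ℚ_[p] in 𝓝 0, eval (w y) D ≠ 0 := by
    refine hcD.eventually_ne ?_
    rw [hev0]
    exact hA.hD
  have e3 : ∀ᶠ y : Fin 3 → ℚ_[p] in 𝓝 0, g j1 y ≠ 0 := (hcg j1).eventually_ne hgne
  have e4 : ∀ᶠ y : Fin 3 → ℚ_[p] in 𝓝 0, ∀ j, ‖θ j y‖ ≤ 1 :=
    eventually_all.2 fun j => ev_le_one (hcθ j) (hκ1 j)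
  have e5 : ∀ᶠ y : Fin 3 → ℚ_[p] in 𝓝 0, ∀ j, ‖η j y‖ < 1 :=
    eventually_all.2 fun j => ev_lt_one (hcη j)
  have e6 : ∀ᶠ y : Fin 3 → ℚ_[p] in 𝓝 0, ‖d y / d 0‖ = 1 := ev_eq_one hcδ
  filter_upwards [e1, e2, e3, e4, e5, e6] with y he1 he2 he3 he4 he5 he6
  set q := eval y (f i0) with hq
  set H : Fin r → ℚ_[p] := fun j => eval (w y) (h j) with hH
  set R : Fin r → ℚ_[p] := fun j => eval (w y) (Pool.Agent.Q57.QP.rem f j1 D e h j) with hR
  have hdy : d y ≠ 0 := inv_ne_zero (pow_ne_zero _ he2)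
  have hRj : ∀ j, R j = d 0 * (H j - κ j * H j1) := by
    intro j
    rw [hR, hH, hd0, hκ]
    beta_reduce
    unfold Pool.Agent.Q57.QP.rem
    rw [map_mul, eval_C, map_sub, map_mul, eval_C]
  have hH0 : H i0 = 0 := by
    rw [hH]
    beta_reduce
    rw [hA.h0, map_zero]
  have hF : ∀ j, eval y (f j) = d y * (H j + q * g j y) := by
    intro j
    have h1 := hA.eq ℚ_[p] (RingHom.id ℚ_[p]) y (v y) (by
      rw [RingHom.id_apply]
      exact mul_inv_cancel₀ he1) j
    rw [eval₂_id, eval₂_id, eval₂_id, eval₂_id, eval₂_id] at h1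
    have h2 : eval (w y) D ^ e * eval y (f j) = H j + q * g j y := h1
    rw [← h2, ← mul_assoc]
    have h3 : d y * eval (w y) D ^ e = 1 := inv_mul_cancel₀ (pow_ne_zero _ he2)
    rw [h3, one_mul]
  set x : ℚ_[p] := eval y (f j1) with hx
  have hmain : ∀ j, eval y (f j) = θ j y * x + d y / d 0 * R j + η j y * R i0 := by
    intro j
    rw [hF j, hRj j, hRj i0, hH0, hx, hF j1]
    have h1 : θ j y = g j y / g j1 y := rfl
    have h2 : η j y = - (d y * (κ j - θ j y)) / (d 0 * κ i0) := rfl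
    rw [h2, h1]
    field_simp
    ring
  have hRn : nrm (Pool.Agent.Q57.QP.rem f j1 D e h) (w y) = ‖R‖ := rfl
  have hfn : nrm f y = ‖fun j => eval y (f j)‖ := rfl
  change nrm f y = max ‖x‖ (nrm (Pool.Agent.Q57.QP.rem f j1 D e h) (w y))
  rw [hRn, hfn]
  have hRle : ∀ j, ‖R j‖ ≤ ‖R‖ := fun j => norm_le_pi_norm R j
  have hfle : ∀ j, ‖eval y (f j)‖ ≤ ‖fun j => eval y (f j)‖ :=
    fun j => norm_le_pi_norm (fun j => eval y (f j)) j
  apply le_antisymm
  · refine (pi_norm_le_iff_of_nonneg ((norm_nonneg _).trans (le_max_left _ _))).2 fun j => ?_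
    rw [hmain j]
    refine (norm_add3_le _ _ _).trans (max_le (max_le ?_ ?_) ?_)
    · rw [norm_mul]
      refine (mul_le_of_le_one_left (norm_nonneg _) (he4 j)).trans (le_max_left _ _)
    · rw [norm_mul, he6, one_mul]
      exact (hRle j).trans (le_max_right _ _)
    · rw [norm_mul]
      refine (mul_le_of_le_one_left (norm_nonneg _) (he5 j).le).trans
        ((hRle i0).trans (le_max_right _ _))
  · have hxle : ‖x‖ ≤ ‖fun j => eval y (f j)‖ := hfle j1
    have hθx : ∀ j, ‖θ j y * x‖ ≤ ‖fun j => eval y (f j)‖ := by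
      intro j
      rw [norm_mul]
      exact (mul_le_of_le_one_left (norm_nonneg _) (he4 j)).trans hxle
    have hR0 : ‖R i0‖ ≤ ‖fun j => eval y (f j)‖ := by
      by_contra hcon
      push Not at hcon
      have h1 : d y / d 0 * R i0 = eval y (f i0) + - (θ i0 y * x) + - (η i0 y * R i0) := by
        rw [hmain i0]
        ring
      have h2 : ‖R i0‖ ≤ max (max ‖eval y (f i0)‖ ‖- (θ i0 y * x)‖) ‖- (η i0 y * R i0)‖ := by
        have h3 := norm_add3_le (eval y (f i0)) (- (θ i0 y * x)) (- (η i0 y * R i0))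
        rw [← h1, norm_mul, he6, one_mul] at h3
        exact h3
      rw [norm_neg, norm_neg] at h2
      have hpos : 0 < ‖R i0‖ := (norm_nonneg _).trans_lt hcon
      have h3 : ‖η i0 y * R i0‖ < ‖R i0‖ := by
        rw [norm_mul]
        exact mul_lt_of_lt_one_left hpos (he5 i0)
      have h4 : max (max ‖eval y (f i0)‖ ‖θ i0 y * x‖) ‖η i0 y * R i0‖ < ‖R i0‖ :=
        max_lt (max_lt ((hfle i0).trans_lt hcon) ((hθx i0).trans_lt hcon)) h3
      exact absurd h2 (not_le.2 h4)
    refine max_le hxle ((pi_norm_le_iff_of_nonneg (norm_nonneg _)).2 fun j => ?_)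
    have h1 : d y / d 0 * R j = eval y (f j) + - (θ j y * x) + - (η j y * R i0) := by
      rw [hmain j]
      ring
    have h2 : ‖R j‖ ≤ max (max ‖eval y (f j)‖ ‖- (θ j y * x)‖) ‖- (η j y * R i0)‖ := by
      have h3 := norm_add3_le (eval y (f j)) (- (θ j y * x)) (- (η j y * R i0))
      rw [← h1, norm_mul, he6, one_mul] at h3
      exact h3
    rw [norm_neg, norm_neg] at h2
    refine h2.trans (max_le (max_le (hfle j) (hθx j)) ?_)
    rw [norm_mul]
    exact (mul_le_of_le_one_left (norm_nonneg _) (he5 j).le).trans hR0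

end

end Pool.Agent.Q16.QP
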