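import Pool.Agent.Q57.QP.Stm

set_option autoImplicit false
set_option linter.unusedVariables false

/-! # The values at the origin of the functions in the rational coordinates -/

namespace Pool.Agent.Q16.QP

open MvPolynomial Pool.Agent.Q57.QP

section

variable {K : Type} [Field K]

open scoped DualNumber

/-- the value of a polynomial at a point of the dual numbers on the last axis -/
theorem eval_dual (f : MvPolynomial (Fin 3) K) :
    f.eval₂ (algebraMap K K[ε]) ![0, 0, (DualNumber.eps : K[ε])] =
      algebraMap K K[ε] (constantCoeff f) +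
        algebraMap K K[ε] (coeff (Finsupp.single 2 1) f) * DualNumber.eps := by
  classical
  induction f using MvPolynomial.induction_on' with
  | monomial u a =>
    rw [eval₂_monomial]
    have h1 : (u.prod fun n e => (![0, 0, (DualNumber.eps : K[ε])] : Fin 3 → K[ε]) n ^ e) =
        (0 : K[ε]) ^ (u 0) * (0 : K[ε]) ^ (u 1) * (DualNumber.eps : K[ε]) ^ (u 2) := by
      rw [Finsupp.prod_fintype _ _ (fun i => pow_zero _), Fin.prod_univ_three]
      rfl
    rw [h1, constantCoeff_monomial, coeff_monomial]
    have hu0 : u = 0 ↔ u 0 = 0 ∧ u 1 = 0 ∧ u 2 = 0 := by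
      constructor
      · rintro rfl
        simp
      · rintro ⟨a0, a1, a2⟩
        ext i
        fin_cases i <;> simpa
    have hu1 : u = Finsupp.single 2 1 ↔ u 0 = 0 ∧ u 1 = 0 ∧ u 2 = 1 := by
      constructor
      · rintro rfl
        simp
      · rintro ⟨a0, a1, a2⟩
        ext i
        fin_cases i <;> simpa [Finsupp.single_apply]
    by_cases a0 : u 0 = 0
    · by_cases a1 : u 1 = 0
      · rcases Nat.lt_or_ge (u 2) 2 with a2 | a2
        · have a3 : u 2 = 0 ∨ u 2 = 1 := by omega
          rcases a3 with a3 | a3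
          · rw [if_pos (hu0.2 ⟨a0, a1, a3⟩), if_neg, a0, a1, a3]
            · simp
            · rw [hu1]
              omega
          · rw [if_neg, if_pos (hu1.2 ⟨a0, a1, a3⟩), a0, a1, a3]
            · simp
            · rw [hu0]
              omega
        · rw [if_neg, if_neg]
          · have h2 : (DualNumber.eps : K[ε]) ^ (u 2) = 0 := by
              obtain ⟨k, hk⟩ := Nat.exists_eq_add_of_le a2
              rw [hk, pow_add, pow_two, DualNumber.eps_mul_eps, zero_mul]
            rw [h2]
            simp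
          · rw [hu1]
            omega
          · rw [hu0]
            omega
      · rw [if_neg, if_neg, zero_pow a1]
        · simp
        · rw [hu1]
          tauto
        · rw [hu0]
          tauto
    · rw [if_neg, if_neg, zero_pow a0]
      · simp
      · rw [hu1]
        tauto
      · rw [hu0]
        tauto
  | add p q hp hq =>
    rw [eval₂_add, hp, hq, map_add, coeff_add, map_add, map_add]
    ring

/-- the value of a polynomial at the origin -/
theorem eval₂_zero2 {R : Type} [CommRing R] (ψ : K →+* R) (h : MvPolynomial (Fin 2) K) :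
    h.eval₂ ψ ![0, 0] = ψ (constantCoeff h) := by
  have h1 : (![0, 0] : Fin 2 → R) = fun _ => 0 := by
    funext i
    fin_cases i <;> rfl
  rw [h1]
  exact eval₂_zero'_apply ψ h

/-- the values at the origin -/
theorem alg_values {r : ℕ} {f : Fin r → MvPolynomial (Fin 3) K} {i0 : Fin r}
    {ρ : K} {D : MvPolynomial (Fin 2) K} {e : ℕ} {h : Fin r → MvPolynomial (Fin 2) K}
    {G : Fin r → MvPolynomial (Fin 4) K} (hA : AlgData f i0 ρ D e h G)
    (hf : ∀ j, constantCoeff (f j) = 0) (j : Fin r) :
    constantCoeff (h j) = 0 ∧ constantCoeff D ^ e * coeff (Finsupp.single 2 1) (f j) =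
      coeff (Finsupp.single 2 1) (f i0) * eval ![0, 0, 0, 1] (G j) := by
  have h1 := hA.eq K[ε] (algebraMap K K[ε]) ![0, 0, (DualNumber.eps : K[ε])]
    (1 - algebraMap K K[ε] ρ * DualNumber.eps) (by
      have h2 : (DualNumber.eps : K[ε]) * DualNumber.eps = 0 := DualNumber.eps_mul_eps
      change (1 + algebraMap K K[ε] ρ * DualNumber.eps) *
        (1 - algebraMap K K[ε] ρ * DualNumber.eps) = 1
      linear_combination (- (algebraMap K K[ε] ρ) ^ 2) * h2) j
  have h2 : (![(![0, 0, (DualNumber.eps : K[ε])] : Fin 3 → K[ε]) 0 *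
      (1 - algebraMap K K[ε] ρ * DualNumber.eps), (![0, 0, (DualNumber.eps : K[ε])] :
        Fin 3 → K[ε]) 1 * (1 - algebraMap K K[ε] ρ * DualNumber.eps)] : Fin 2 → K[ε]) =
      ![0, 0] := by
    funext i
    fin_cases i <;> simp
  rw [h2, eval₂_zero2, eval₂_zero2, eval_dual, eval_dual, hf, hf, map_zero, zero_add,
    zero_add] at h1
  have h3 : TrivSqZeroExt.fst ((G j).eval₂ (algebraMap K K[ε])
      ![(![0, 0, (DualNumber.eps : K[ε])] : Fin 3 → K[ε]) 0,
        (![0, 0, (DualNumber.eps : K[ε])] : Fin 3 → K[ε]) 1,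
        (![0, 0, (DualNumber.eps : K[ε])] : Fin 3 → K[ε]) 2,
        1 - algebraMap K K[ε] ρ * DualNumber.eps]) = eval ![0, 0, 0, 1] (G j) := by
    have h4 := MvPolynomial.map_eval₂Hom (algebraMap K K[ε])
      ![(![0, 0, (DualNumber.eps : K[ε])] : Fin 3 → K[ε]) 0,
        (![0, 0, (DualNumber.eps : K[ε])] : Fin 3 → K[ε]) 1,
        (![0, 0, (DualNumber.eps : K[ε])] : Fin 3 → K[ε]) 2,
        1 - algebraMap K K[ε] ρ * DualNumber.eps] (TrivSqZeroExt.fstHom K K K : K[ε] →+* K) (G j)
    change (TrivSqZeroExt.fstHom K K K : K[ε] →+* K) _ = _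
    rw [← coe_eval₂Hom, h4]
    have h5 : ((TrivSqZeroExt.fstHom K K K : K[ε] →+* K).comp (algebraMap K K[ε])) =
        RingHom.id K := by
      ext a
      simp
    rw [h5]
    have h6 : (fun i => (TrivSqZeroExt.fstHom K K K : K[ε] →+* K)
        ((![(![0, 0, (DualNumber.eps : K[ε])] : Fin 3 → K[ε]) 0,
        (![0, 0, (DualNumber.eps : K[ε])] : Fin 3 → K[ε]) 1,
        (![0, 0, (DualNumber.eps : K[ε])] : Fin 3 → K[ε]) 2,
        1 - algebraMap K K[ε] ρ * DualNumber.eps] : Fin 4 → K[ε]) i)) = ![0, 0, 0, 1] := by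
      funext i
      fin_cases i <;> simp
    rw [h6]
    rfl
  have k1 : ∀ a : K, TrivSqZeroExt.fst (algebraMap K K[ε] a) = a := fun a => rfl
  have k2 : ∀ a : K, TrivSqZeroExt.snd (algebraMap K K[ε] a) = 0 := fun a => rfl
  constructor
  · have h4 := congrArg TrivSqZeroExt.fst h1
    simpa [k1] using h4.symm
  · have h4 := congrArg TrivSqZeroExt.snd h1
    rw [← h3]
    simpa [k1, k2, mul_comm] using h4

end

end Pool.Agent.Q16.QP
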