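import Pool.Agent.Q16.QP.Pre

set_option autoImplicit false
set_option linter.unusedVariables false

/-! # The roots of the family in the rational coordinates -/

namespace Pool.Agent.Q16.QP

open MvPolynomial Pool.Agent.Q57.QP
open Pool.Agent.Q57.MD (sumF)
open Pool.Agent.Y229 (SF)

section

variable {K : Type} [Field K]

/-- the root of a coordinate function -/
theorem sf_X0 : SF (fun _ : Fin 1 => (X 0 : MvPolynomial (Fin 1) ℂ)) 0 (-1) := by
  classical
  have h1 := Pool.Agent.Q57.MC.sf_minus_one (fun _ : Fin 1 => (1 : MvPolynomial (Fin 0) ℂ))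
    ⟨0, one_ne_zero⟩ 0
  refine Pool.Agent.Y229.sf_equiv (Equiv.sumEmpty (Fin 1) (Fin 0)) (Equiv.refl _)
    (fun _ : Fin 1 => Pool.Agent.W574.HS.univ (fun _ : Fin 1 => (1 : MvPolynomial (Fin 0) ℂ)))
    (fun _ : Fin 1 => (X 0 : MvPolynomial (Fin 1) ℂ)) (fun j => ?_) 0 (-1) ?_
  · unfold Pool.Agent.W574.HS.univ
    rw [map_sum]
    simp
  · have h2 : ((0 : Fin 1 → ℂ) ∘ (Equiv.sumEmpty (Fin 1) (Fin 0))) =
        Sum.elim (0 : Fin 1 → ℂ) (0 : Fin 0 → ℂ) := by
      funext x
      rcases x with x | x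
      · rfl
      · exact Fin.elim0 x
    rw [h2]
    exact h1

/-- the roots in formal coordinates -/
theorem formalSF {n r c l : ℕ} (f : Fin r → MvPolynomial (Fin n) ℂ)
    (h : Fin l → MvPolynomial (Fin c) ℂ) (g : Fin c → MvPowerSeries (Fin n) ℂ)
    (s : Fin c → Fin n) (hg : ∀ t, MvPowerSeries.constantCoeff (g t) = 0)
    (hd : (Matrix.of fun u t => MvPowerSeries.coeff (Finsupp.single (s u) 1) (g t)).det ≠ 0)
    (hs : Ideal.span (Set.range fun j =>
        ((f j : MvPolynomial (Fin n) ℂ) : MvPowerSeries (Fin n) ℂ)) =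
      Ideal.span (Set.range fun k => aeval g (h k))) (hne : ∃ k, h k ≠ 0) (α : ℂ)
    (hα : SF h 0 α) : SF f 0 α := by
  classical
  exact Pool.Agent.Q57.MD.sf_of_transf f h 0
    (Pool.Agent.Q57.MD.transfer_formal f h g s hg hd hs) hne α
    ((Pool.Agent.Q57.MC.sf_iff h hne α).1 hα)

/-- the inverse of `1 + ρ x_2` -/
noncomputable def vv (a : ℂ) : MvPowerSeries (Fin 3) ℂ :=
  (1 + MvPowerSeries.C a * MvPowerSeries.X 2)⁻¹

theorem cc_one (a : ℂ) : MvPowerSeries.constantCoeff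
    (1 + MvPowerSeries.C a * MvPowerSeries.X 2 : MvPowerSeries (Fin 3) ℂ) = 1 := by
  rw [map_add, map_mul, MvPowerSeries.constantCoeff_X, mul_zero, map_one, add_zero]

theorem vv_mul (a : ℂ) : (1 + MvPowerSeries.C a * MvPowerSeries.X 2) * vv a = 1 := by
  unfold vv
  refine MvPowerSeries.mul_inv_cancel _ ?_
  rw [cc_one]
  exact one_ne_zero

theorem cc_vv (a : ℂ) : MvPowerSeries.constantCoeff (vv a) = 1 := by
  have h1 := congrArg MvPowerSeries.constantCoeff (vv_mul a)
  rwa [map_mul, cc_one, one_mul, map_one] at h1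

/-- the two rational coordinates -/
noncomputable def uu (a : ℂ) : Fin 2 → MvPowerSeries (Fin 3) ℂ :=
  ![MvPowerSeries.X 0 * vv a, MvPowerSeries.X 1 * vv a]

theorem cc_uu (a : ℂ) (i : Fin 2) : MvPowerSeries.constantCoeff (uu a i) = 0 := by
  fin_cases i
  · change MvPowerSeries.constantCoeff (MvPowerSeries.X 0 * vv a) = 0
    rw [map_mul, MvPowerSeries.constantCoeff_X, zero_mul]
  · change MvPowerSeries.constantCoeff (MvPowerSeries.X 1 * vv a) = 0
    rw [map_mul, MvPowerSeries.constantCoeff_X, zero_mul]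

/-- a linear coefficient of `x_i w` -/
theorem coeff_X_mul (i k : Fin 3) (w : MvPowerSeries (Fin 3) ℂ) :
    MvPowerSeries.coeff (Finsupp.single k 1) (MvPowerSeries.X i * w) =
      if k = i then MvPowerSeries.constantCoeff w else 0 := by
  classical
  rw [MvPowerSeries.X_def, MvPowerSeries.coeff_monomial_mul]
  by_cases h : k = i
  · subst h
    rw [if_pos le_rfl, if_pos rfl, tsub_self, one_mul]
    rfl
  · rw [if_neg, if_neg h]
    intro h1
    have h2 := h1 i
    rw [Finsupp.single_eq_same, Finsupp.single_apply, if_neg h] at h2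
    omega

/-- the value of a polynomial over `K` at power series -/
theorem eval₂_comp_C (φ : K →+* ℂ) {c : ℕ} (g : Fin c → MvPowerSeries (Fin 3) ℂ)
    (P : MvPolynomial (Fin c) K) :
    P.eval₂ ((MvPowerSeries.C (σ := Fin 3) (R := ℂ)).comp φ) g = aeval g (map φ P) := by
  rw [aeval_def, eval₂_map]
  rfl

theorem coe_map (φ : K →+* ℂ) (P : MvPolynomial (Fin 3) K) :
    P.eval₂ ((MvPowerSeries.C (σ := Fin 3) (R := ℂ)).comp φ) MvPowerSeries.X =
      ((map φ P : MvPolynomial (Fin 3) ℂ) : MvPowerSeries (Fin 3) ℂ) := by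
  rw [eval₂_comp_C]
  induction map φ P using MvPolynomial.induction_on with
  | C a =>
    rw [aeval_C, MvPolynomial.coe_C]
    rfl
  | add p q hp hq => rw [map_add, hp, hq, MvPolynomial.coe_add]
  | mul_X p i hp => rw [map_mul, hp, aeval_X, MvPolynomial.coe_mul, MvPolynomial.coe_X]

theorem cc_eval (φ : K →+* ℂ) {c : ℕ} (g : Fin c → MvPowerSeries (Fin 3) ℂ)
    (P : MvPolynomial (Fin c) K) (a : Fin c → K)
    (ha : ∀ i, MvPowerSeries.constantCoeff (g i) = φ (a i)) :
    MvPowerSeries.constantCoeff (P.eval₂ ((MvPowerSeries.C (σ := Fin 3) (R := ℂ)).comp φ) g) =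
      φ (eval a P) := by
  rw [← coe_eval₂Hom, map_eval₂Hom]
  have h1 : (MvPowerSeries.constantCoeff (σ := Fin 3) (R := ℂ)).comp
      ((MvPowerSeries.C (σ := Fin 3) (R := ℂ)).comp φ) = φ := by
    ext x
    rw [RingHom.comp_apply, RingHom.comp_apply, MvPowerSeries.constantCoeff_C]
  rw [h1]
  have h2 : (fun i => MvPowerSeries.constantCoeff (g i)) = fun i => φ (a i) := funext ha
  rw [h2]
  have h3 := MvPolynomial.eval₂_comp_left φ (RingHom.id K) a P
  rw [RingHom.comp_id] at h3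
  exact h3.symm

variable {φ : K →+* ℂ} {r : ℕ} {f : Fin r → MvPolynomial (Fin 3) K} {i0 : Fin r}
    {ρ : K} {D : MvPolynomial (Fin 2) K} {e : ℕ} {h : Fin r → MvPolynomial (Fin 2) K}
    {G : Fin r → MvPolynomial (Fin 4) K}

/-- the ideal in the formal coordinates -/
theorem ideal_eq (φ : K →+* ℂ) (hA : AlgData f i0 ρ D e h G)
    (hf : ∀ j, constantCoeff (f j) = 0) (hb : coeff (Finsupp.single 2 1) (f i0) ≠ 0)
    (j1 : Fin r) (hb1 : coeff (Finsupp.single 2 1) (f j1) ≠ 0) :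
    Ideal.span (Set.range fun j =>
      ((map φ (f j) : MvPolynomial (Fin 3) ℂ) : MvPowerSeries (Fin 3) ℂ)) =
    Ideal.span (insert ((map φ (f j1) : MvPolynomial (Fin 3) ℂ) : MvPowerSeries (Fin 3) ℂ)
      (Set.range fun j => aeval (uu (φ ρ)) (map φ (Pool.Agent.Q57.QP.rem f j1 D e h j)))) := by
  classical
  set ψ : K →+* MvPowerSeries (Fin 3) ℂ := (MvPowerSeries.C (σ := Fin 3) (R := ℂ)).comp φ with hψ
  set F : Fin r → MvPowerSeries (Fin 3) ℂ := fun j =>
    ((map φ (f j) : MvPolynomial (Fin 3) ℂ) : MvPowerSeries (Fin 3) ℂ) with hF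
  set H : Fin r → MvPowerSeries (Fin 3) ℂ := fun j => (h j).eval₂ ψ (uu (φ ρ)) with hH
  set g4 : Fin 4 → MvPowerSeries (Fin 3) ℂ :=
    ![MvPowerSeries.X 0, MvPowerSeries.X 1, MvPowerSeries.X 2, vv (φ ρ)] with hg4
  set Γ : Fin r → MvPowerSeries (Fin 3) ℂ := fun j => (G j).eval₂ ψ g4 with hΓ
  set E : MvPowerSeries (Fin 3) ℂ := (D.eval₂ ψ (uu (φ ρ))) ^ e with hE
  set R : Fin r → MvPowerSeries (Fin 3) ℂ := fun j =>
    aeval (uu (φ ρ)) (map φ (Pool.Agent.Q57.QP.rem f j1 D e h j)) with hR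
  have heq : ∀ j, E * F j = H j + F i0 * Γ j := by
    intro j
    have h1 := hA.eq (MvPowerSeries (Fin 3) ℂ) ψ MvPowerSeries.X (vv (φ ρ)) (vv_mul (φ ρ)) j
    rw [coe_map, coe_map] at h1
    exact h1
  have hH0 : H i0 = 0 := by
    change (h i0).eval₂ ψ (uu (φ ρ)) = 0
    rw [hA.h0, eval₂_zero]
  set δ : K := (constantCoeff D ^ e)⁻¹ with hδ
  have hδ0 : δ ≠ 0 := inv_ne_zero (pow_ne_zero _ hA.hD)
  set κ : Fin r → K := fun j =>
    coeff (Finsupp.single 2 1) (f j) / coeff (Finsupp.single 2 1) (f j1) with hκ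
  have hκ0 : κ i0 ≠ 0 := div_ne_zero hb hb1
  have hRj : ∀ j, R j = ψ δ * (H j - ψ (κ j) * H j1) := by
    intro j
    change aeval (uu (φ ρ)) (map φ (Pool.Agent.Q57.QP.rem f j1 D e h j)) = _
    rw [← eval₂_comp_C]
    unfold Pool.Agent.Q57.QP.rem
    rw [eval₂_mul, eval₂_C, eval₂_sub, eval₂_mul, eval₂_C]
  have hEu : IsUnit E := by
    rw [MvPowerSeries.isUnit_iff_constantCoeff]
    refine isUnit_iff_ne_zero.2 ?_
    rw [hE, map_pow, cc_eval φ (uu (φ ρ)) D 0 (fun i => by
      rw [cc_uu, Pi.zero_apply, map_zero])]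
    refine pow_ne_zero _ ((map_ne_zero φ).2 ?_)
    rw [MvPolynomial.eval_zero]
    exact hA.hD
  have hΓu : IsUnit (Γ j1) := by
    rw [MvPowerSeries.isUnit_iff_constantCoeff]
    refine isUnit_iff_ne_zero.2 ?_
    change MvPowerSeries.constantCoeff ((G j1).eval₂ ψ g4) ≠ 0
    rw [cc_eval φ g4 (G j1) ![0, 0, 0, 1] (fun i => by
      fin_cases i
      · exact (MvPowerSeries.constantCoeff_X 0).trans (map_zero φ).symm
      · exact (MvPowerSeries.constantCoeff_X 1).trans (map_zero φ).symm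
      · exact (MvPowerSeries.constantCoeff_X 2).trans (map_zero φ).symm
      · exact (cc_vv _).trans (map_one φ).symm)]
    refine (map_ne_zero φ).2 ?_
    intro h0
    have h1 := (alg_values hA hf j1).2
    rw [h0, mul_zero] at h1
    exact mul_ne_zero (pow_ne_zero _ hA.hD) hb1 h1
  have hinv : ∀ a : K, a ≠ 0 → ψ a⁻¹ * ψ a = 1 := by
    intro a ha
    rw [← map_mul, inv_mul_cancel₀ ha, map_one]
  apply le_antisymm
  · refine Ideal.span_le.2 ?_
    rintro _ ⟨j, rfl⟩
    set J := Ideal.span (insert (F j1) (Set.range R)) with hJ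
    have m1 : F j1 ∈ J := Ideal.subset_span (Set.mem_insert _ _)
    have mR : ∀ j, R j ∈ J := fun j => Ideal.subset_span (Set.mem_insert_of_mem _ ⟨j, rfl⟩)
    have mH1 : H j1 ∈ J := by
      have h1 : H j1 = - (ψ (κ i0)⁻¹ * ψ δ⁻¹) * R i0 := by
        rw [hRj i0, hH0]
        have h2 := hinv _ hκ0
        have h3 := hinv _ hδ0
        linear_combination (- H j1) * h2 - ψ (κ i0)⁻¹ * ψ (κ i0) * H j1 * h3
      rw [h1]
      exact Ideal.mul_mem_left _ _ (mR i0)
    have mH : ∀ j, H j ∈ J := by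
      intro j
      have h1 : H j = ψ δ⁻¹ * R j + ψ (κ j) * H j1 := by
        rw [hRj j]
        have h3 := hinv _ hδ0
        linear_combination (- (H j - ψ (κ j) * H j1)) * h3
      rw [h1]
      exact Ideal.add_mem _ (Ideal.mul_mem_left _ _ (mR j)) (Ideal.mul_mem_left _ _ mH1)
    have mq : F i0 ∈ J := by
      have h1 : F i0 * Γ j1 ∈ J := by
        have h2 : F i0 * Γ j1 = E * F j1 - H j1 := by
          rw [heq j1]
          ring
        rw [h2]
        exact Ideal.sub_mem _ (Ideal.mul_mem_left _ _ m1) mH1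
      exact (Ideal.mul_unit_mem_iff_mem _ hΓu).1 h1
    have h1 : E * F j ∈ J := by
      rw [heq j]
      exact Ideal.add_mem _ (mH j) (Ideal.mul_mem_right _ _ mq)
    exact (Ideal.unit_mul_mem_iff_mem _ hEu).1 h1
  · refine Ideal.span_le.2 ?_
    have mF : ∀ j, F j ∈ Ideal.span (Set.range F) := fun j => Ideal.subset_span ⟨j, rfl⟩
    have mH : ∀ j, H j ∈ Ideal.span (Set.range F) := by
      intro j
      have h1 : H j = E * F j - F i0 * Γ j := by
        rw [heq j]
        ring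
      rw [h1]
      exact Ideal.sub_mem _ (Ideal.mul_mem_left _ _ (mF j)) (Ideal.mul_mem_right _ _ (mF i0))
    intro x hx
    rcases Set.mem_insert_iff.1 hx with rfl | ⟨j, rfl⟩
    · exact mF j1
    · change R j ∈ Ideal.span (Set.range F)
      rw [hRj j]
      exact Ideal.mul_mem_left _ _ (Ideal.sub_mem _ (mH j) (Ideal.mul_mem_left _ _ (mH j1)))

/-- **The roots.** -/
theorem qp_rootq : StRootQ := by
  intro K _ φ r f i0 j1 ρ D e h G hA hf hb hb1
  classical
  have hbφ : φ (coeff (Finsupp.single 2 1) (f j1)) ≠ 0 := (map_ne_zero φ).2 hb1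
  have hcF : ∀ s : Fin 3 →₀ ℕ, MvPowerSeries.coeff s
      ((map φ (f j1) : MvPolynomial (Fin 3) ℂ) : MvPowerSeries (Fin 3) ℂ) = φ (coeff s (f j1)) := by
    intro s
    rw [MvPolynomial.coeff_coe, coeff_map]
  have hccF : MvPowerSeries.constantCoeff
      ((map φ (f j1) : MvPolynomial (Fin 3) ℂ) : MvPowerSeries (Fin 3) ℂ) = 0 := by
    rw [← MvPowerSeries.coeff_zero_eq_constantCoeff_apply, hcF]
    have h1 : coeff 0 (f j1) = 0 := hf j1
    rw [h1, map_zero]
  constructor
  · intro h0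
    refine formalSF _ (fun _ : Fin 1 => (X 0 : MvPolynomial (Fin 1) ℂ))
      (fun _ => ((map φ (f j1) : MvPolynomial (Fin 3) ℂ) : MvPowerSeries (Fin 3) ℂ))
      (fun _ => 2) (fun _ => hccF) ?_ ?_ ⟨0, X_ne_zero 0⟩ _ sf_X0
    · rw [Matrix.det_fin_one, Matrix.of_apply, hcF]
      exact hbφ
    · rw [ideal_eq φ hA hf hb j1 hb1]
      apply le_antisymm
      · refine Ideal.span_le.2 ?_
        intro x hx
        rcases Set.mem_insert_iff.1 hx with rfl | ⟨j, rfl⟩
        · refine Ideal.subset_span ⟨0, ?_⟩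
          exact aeval_X _ _
        · change aeval (uu (φ ρ)) (map φ (Pool.Agent.Q57.QP.rem f j1 D e h j)) ∈ Ideal.span _
          rw [h0, map_zero, map_zero]
          exact Ideal.zero_mem _
      · refine Ideal.span_le.2 ?_
        rintro _ ⟨j, rfl⟩
        refine Ideal.subset_span (Set.mem_insert_iff.2 (Or.inl ?_))
        exact aeval_X _ _
  · intro hne β hβ
    have h1 := Pool.Agent.Q57.MD.sf_sumF (fun _ : Fin 1 => (X 0 : MvPolynomial (Fin 1) ℂ))
      (fun j => map φ (Pool.Agent.Q57.QP.rem f j1 D e h j)) 0 0 _ _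
      sf_X0 hβ
    rw [Pool.Agent.Q57.MD.elim_zero'] at h1
    refine formalSF _ (sumF (fun _ : Fin 1 => (X 0 : MvPolynomial (Fin 1) ℂ))
      (fun j => map φ (Pool.Agent.Q57.QP.rem f j1 D e h j)))
      (Fin.append (fun _ : Fin 1 =>
        ((map φ (f j1) : MvPolynomial (Fin 3) ℂ) : MvPowerSeries (Fin 3) ℂ)) (uu (φ ρ)))
      (![2, 0, 1] : Fin 3 → Fin 3) ?_ ?_ ?_
      (Pool.Agent.Q57.MD.sumF_ne (fun _ : Fin 1 => (X 0 : MvPolynomial (Fin 1) ℂ))
        (fun j => map φ (Pool.Agent.Q57.QP.rem f j1 D e h j)) ⟨0, X_ne_zero 0⟩) _ h1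
    · intro t
      refine Fin.addCases (fun i => ?_) (fun i => ?_) t
      · rw [Fin.append_left]
        exact hccF
      · rw [Fin.append_right]
        exact cc_uu _ _
    · have h2 : (Matrix.of fun (u : Fin 3) (t : Fin 3) =>
          MvPowerSeries.coeff (Finsupp.single ((![2, 0, 1] : Fin 3 → Fin 3) u) 1)
          ((![((map φ (f j1) : MvPolynomial (Fin 3) ℂ) : MvPowerSeries (Fin 3) ℂ),
            MvPowerSeries.X 0 * vv (φ ρ), MvPowerSeries.X 1 * vv (φ ρ)] :
              Fin 3 → MvPowerSeries (Fin 3) ℂ) t)).det =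
          φ (coeff (Finsupp.single 2 1) (f j1)) := by
        rw [Matrix.det_fin_three]
        simp [coeff_X_mul, hcF, cc_vv]
      have h3 : (Fin.append (fun _ : Fin 1 =>
        ((map φ (f j1) : MvPolynomial (Fin 3) ℂ) : MvPowerSeries (Fin 3) ℂ)) (uu (φ ρ)) :
          Fin (1 + 2) → MvPowerSeries (Fin 3) ℂ) =
          (![((map φ (f j1) : MvPolynomial (Fin 3) ℂ) : MvPowerSeries (Fin 3) ℂ),
            MvPowerSeries.X 0 * vv (φ ρ), MvPowerSeries.X 1 * vv (φ ρ)] :
              Fin 3 → MvPowerSeries (Fin 3) ℂ) := by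
        funext t
        refine Fin.addCases (fun i => ?_) (fun i => ?_) t
        · rw [Fin.append_left]
          fin_cases i
          rfl
        · rw [Fin.append_right]
          fin_cases i <;> rfl
      rw [h3]
      intro h4
      exact hbφ (h2.symm.trans h4)
    · rw [ideal_eq φ hA hf hb j1 hb1]
      have hL : ∀ i : Fin 1, aeval (Fin.append (fun _ : Fin 1 =>
          ((map φ (f j1) : MvPolynomial (Fin 3) ℂ) : MvPowerSeries (Fin 3) ℂ)) (uu (φ ρ)))
          (sumF (fun _ : Fin 1 => (X 0 : MvPolynomial (Fin 1) ℂ))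
            (fun j => map φ (Pool.Agent.Q57.QP.rem f j1 D e h j)) (Fin.castAdd r i)) =
          ((map φ (f j1) : MvPolynomial (Fin 3) ℂ) : MvPowerSeries (Fin 3) ℂ) := by
        intro i
        unfold sumF
        rw [finSumFinEquiv_symm_apply_castAdd, Sum.elim_inl, rename_X, aeval_X, Fin.append_left]
      have hR : ∀ j : Fin r, aeval (Fin.append (fun _ : Fin 1 =>
          ((map φ (f j1) : MvPolynomial (Fin 3) ℂ) : MvPowerSeries (Fin 3) ℂ)) (uu (φ ρ)))
          (sumF (fun _ : Fin 1 => (X 0 : MvPolynomial (Fin 1) ℂ))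
            (fun j => map φ (Pool.Agent.Q57.QP.rem f j1 D e h j)) (Fin.natAdd 1 j)) =
          aeval (uu (φ ρ)) (map φ (Pool.Agent.Q57.QP.rem f j1 D e h j)) := by
        intro j
        unfold sumF
        rw [finSumFinEquiv_symm_apply_natAdd, Sum.elim_inr, aeval_rename]
        congr 2
        funext i
        exact Fin.append_right _ _ _
      congr 1
      ext x
      rw [Set.mem_insert_iff, Set.mem_range, Set.mem_range]
      constructor
      · rintro (rfl | ⟨j, rfl⟩)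
        · exact ⟨Fin.castAdd r 0, hL 0⟩
        · exact ⟨Fin.natAdd 1 j, hR j⟩
      · rintro ⟨k, rfl⟩
        refine Fin.addCases (fun i => ?_) (fun i => ?_) k
        · exact Or.inl (hL i)
        · exact Or.inr ⟨i, (hR i).symm⟩

end

end Pool.Agent.Q16.QP
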